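import Mathlib

/-!
# Project ST, part CON: the scalar lemmas
-/

set_option autoImplicit false

namespace Pool.Agent.N776.ST

open Finset

/-- a median -/
theorem med (φ : ℝ → ℝ) (hφ : Antitone φ) (τ β T t0 : ℝ) (h0 : ∀ t, 0 ≤ φ t) (hτ : ∀ t, φ t ≤ τ)
    (hT : φ T = 0) (ht0 : 0 < t0) (h1 : τ - β / 2 ≤ φ t0) (hβ : 0 ≤ β) :
    ∃ m : ℝ, 0 < m ∧ (∀ t, m < t → φ t ≤ τ / 2) ∧
      ∀ t, 0 < t → t < m → τ - φ t ≤ min (φ t) (τ - φ t) + β := by
  set S : Set ℝ := {t | 0 < t ∧ φ t ≤ τ / 2} with hS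
  have hτ0 : 0 ≤ τ := (h0 0).trans (hτ 0)
  have hne : S.Nonempty := by
    refine ⟨max T 1, lt_of_lt_of_le one_pos (le_max_right _ _), ?_⟩
    have h2 := hφ (le_max_left T 1)
    rw [hT] at h2
    linarith
  have hbd : BddBelow S := ⟨0, fun t ht => ht.1.le⟩
  have hm0 : 0 ≤ sInf S := le_csInf hne fun t ht => ht.1.le
  rcases hm0.lt_or_eq with hm | hm
  · refine ⟨sInf S, hm, ?_, ?_⟩
    · intro t ht
      obtain ⟨s, hs, hst⟩ := exists_lt_of_csInf_lt hne ht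
      exact (hφ hst.le).trans hs.2
    · intro t ht1 ht2
      have h3 : t ∉ S := fun h => absurd (csInf_le hbd h) (not_le.2 ht2)
      have h4 : τ / 2 < φ t := by
        by_contra h5
        exact h3 ⟨ht1, not_lt.1 h5⟩
      have h5 : min (φ t) (τ - φ t) = τ - φ t := min_eq_right (by linarith)
      rw [h5]
      linarith
  · refine ⟨1, one_pos, ?_, ?_⟩
    · intro t ht
      obtain ⟨s, hs, hst⟩ := exists_lt_of_csInf_lt hne (show sInf S < t by rw [← hm]; linarith)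
      exact (hφ hst.le).trans hs.2
    · intro t _ _
      obtain ⟨s, hs, hst⟩ := exists_lt_of_csInf_lt hne (show sInf S < t0 by rw [← hm]; exact ht0)
      have h2 : φ t0 ≤ τ / 2 := (hφ hst.le).trans hs.2
      have h3 : 0 ≤ min (φ t) (τ - φ t) := le_min (h0 t) (by linarith [hτ t])
      linarith [h0 t]

theorem down (F : ℕ → ℝ) (C r : ℝ) (h : ∀ n, F (n + 1) ≤ C * (F n - F (n + 1)) + r)
    (ha : ∀ n, F (n + 1) ≤ F n) (N : ℕ) : (N : ℝ) * F N ≤ C * (F 0 - F N) + N * r := by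
  induction N with
  | zero => simp
  | succ n ih =>
    have h1 := mul_le_mul_of_nonneg_left (ha n) (Nat.cast_nonneg (α := ℝ) n)
    have h2 := h n
    push_cast
    nlinarith

theorem up (F : ℕ → ℝ) (C r : ℝ) (h : ∀ n, F (n + 1) ≤ C * (F (n + 1) - F (n + 2)) + r)
    (ha : ∀ n, F (n + 1) ≤ F n) (N : ℕ) : (N : ℝ) * F N ≤ C * (F 1 - F (N + 1)) + N * r := by
  induction N with
  | zero => simp
  | succ n ih =>
    have h1 := mul_le_mul_of_nonneg_left (ha n) (Nat.cast_nonneg (α := ℝ) n)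
    have h2 := h n
    push_cast
    nlinarith

/-- choice of the constants -/
theorem consts (c ρ γ : ℝ) (hc : 0 ≤ c) (hρ : 0 < ρ) (hγ : 1 < γ) :
    ∃ (N : ℕ) (q ε : ℝ), 0 < N ∧ 1 < q ∧ q ^ N = γ ∧ 0 < ε ∧ c / N ≤ ρ / 8 ∧
      c * ((100 * (q / (q - 1)) * ε + 100 * ε) + √(100 * (q / (q - 1)) * ε + 100 * ε)) +
        6 * ε ≤ ρ / 8 := by
  obtain ⟨N, hN⟩ := exists_nat_gt (8 * c / ρ)
  have hN0 : (0 : ℝ) < N := lt_of_le_of_lt (by positivity) hN
  have hN1 : 0 < N := by exact_mod_cast hN0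
  have hq : 1 < γ ^ ((N : ℝ)⁻¹) := Real.one_lt_rpow hγ (by positivity)
  set q : ℝ := γ ^ ((N : ℝ)⁻¹) with hqd
  have hqN : q ^ N = γ := by
    rw [hqd, ← Real.rpow_natCast, ← Real.rpow_mul (by linarith), inv_mul_cancel₀ hN0.ne',
      Real.rpow_one]
  have hq1 : 0 < q - 1 := by linarith
  have hq2 : 0 ≤ q / (q - 1) := by positivity
  set A : ℝ := 100 * (q / (q - 1)) + 100 with hA
  have hA1 : 1 ≤ A := by rw [hA]; linarith
  have hA0 : 0 < A := by linarith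
  set δ : ℝ := min 1 (ρ / (8 * (2 * c + 6))) with hδ
  have hδ0 : 0 < δ := lt_min one_pos (by positivity)
  have hδ1 : δ ≤ 1 := min_le_left _ _
  have hδ2 : (2 * c + 6) * δ ≤ ρ / 8 := by
    have h1 : δ ≤ ρ / (8 * (2 * c + 6)) := min_le_right _ _
    have h2 := mul_le_mul_of_nonneg_left h1 (show 0 ≤ 2 * c + 6 by linarith)
    have h3 : (2 * c + 6) * (ρ / (8 * (2 * c + 6))) = ρ / 8 := by
      field_simp
    linarith
  have e1 : 100 * (q / (q - 1)) * (δ ^ 2 / A) + 100 * (δ ^ 2 / A) = δ ^ 2 := by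
    have : 100 * (q / (q - 1)) * (δ ^ 2 / A) + 100 * (δ ^ 2 / A) = A * (δ ^ 2 / A) := by
      rw [hA]; ring
    rw [this]
    field_simp
  refine ⟨N, q, δ ^ 2 / A, hN1, hq, hqN, by positivity, ?_, ?_⟩
  · rw [div_le_iff₀ hN0]
    rw [div_lt_iff₀ hρ] at hN
    linarith
  · rw [e1, Real.sqrt_sq hδ0.le]
    have h1 : δ ^ 2 ≤ δ := by nlinarith
    have h2 : δ ^ 2 / A ≤ δ ^ 2 := div_le_self (by positivity) hA1
    have h3 := mul_le_mul_of_nonneg_left h1 hc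
    nlinarith

end Pool.Agent.N776.ST
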