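import Pool.Agent.N52.ST.Stm
import Pool.Agent.N957.NH.Core
import Pool.Agent.N776.ST.ConSc

/-!
# Project ST, part CON: concentration of the Casimir values on every piece
-/

set_option autoImplicit false

namespace Pool.Agent.N776.ST

open Matrix Finset
open scoped ComplexOrder
open Pool.Agent.W661.RC Pool.Agent.W683.RC Pool.Agent.N303.KQ Pool.Agent.N52.NH
open Pool.Agent.N52.ST

noncomputable section

namespace Con

variable {d : ℕ}

/-- sums of orthogonal projections -/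
theorem sum_mul_of {ι : Type} (z : ι → Mt d) (h1 : ∀ i, IsPr (z i))
    (h2 : ∀ i j, i ≠ j → z i * z j = 0) (A B : Finset ι) (h : A ⊆ B) :
    (∑ i ∈ B, z i) * (∑ i ∈ A, z i) = ∑ i ∈ A, z i := by
  classical
  rw [Finset.mul_sum]
  refine sum_congr rfl fun i hi => ?_
  rw [Finset.sum_mul, sum_eq_single i]
  · exact (h1 i).2
  · intro j _ hj
    exact h2 j i hj
  · intro h3
    exact absurd (h hi) h3

theorem sum_isPr {ι : Type} (z : ι → Mt d) (h1 : ∀ i, IsPr (z i))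
    (h2 : ∀ i j, i ≠ j → z i * z j = 0) (A : Finset ι) : IsPr (∑ i ∈ A, z i) := by
  refine ⟨?_, sum_mul_of z h1 h2 A A (Subset.refl A)⟩
  rw [Matrix.conjTranspose_sum]
  exact sum_congr rfl fun i _ => (h1 i).1

variable (hK : S_KKZ)
include hK

theorem zg_eq (O : Out d) (t : ℝ) : ZG O t =
    ∑ κ ∈ @Finset.filter _ (fun κ => t < cc O κ) (Classical.decPred _) (cl O), zc O κ :=
  (hK d O).2.2.2.1 (fun κ => t < cc O κ)

theorem zg_pr (O : Out d) (t : ℝ) : IsPr (ZG O t) := by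
  rw [zg_eq hK]
  exact sum_isPr _ (fun κ => ((hK d O).1 κ).1) (hK d O).2.1 _

theorem zg_comm (O : Out d) (t : ℝ) (a : Mt d) (ha : a ∈ O.alg) : ZG O t * a = a * ZG O t := by
  rw [zg_eq hK, Finset.sum_mul, Finset.mul_sum]
  exact sum_congr rfl fun κ _ => ((hK d O).1 κ).2.2 a ha

theorem zg_mul (O : Out d) {t' t : ℝ} (h : t' ≤ t) : ZG O t' * ZG O t = ZG O t := by
  rw [zg_eq hK, zg_eq hK]
  refine sum_mul_of _ (fun κ => ((hK d O).1 κ).1) (hK d O).2.1 _ _ ?_
  intro κ hκ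
  rw [mem_filter] at hκ ⊢
  exact ⟨hκ.1, lt_of_le_of_lt h hκ.2⟩

theorem zg_le (O : Out d) {t' t : ℝ} (h : t' ≤ t) : Le (ZG O t) (ZG O t') :=
  pr_le (zg_pr hK O t) (zg_pr hK O t') (zg_mul hK O h)

omit hK in
theorem pr_zero_of (O : Out d) (i : O.I) (h : O.l (O.c i) = 0) : pr O i = 0 := by
  have h1 : Bm O (eu O i i) = 0 := by
    ext x y
    simp only [Bm, eu, Matrix.zero_apply]
    by_cases h2 : x.1 = i
    · exfalso
      obtain ⟨j, r⟩ := x
      simp only at h2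
      subst h2
      have := r.2
      omega
    · have h5 : ¬ (x.1 = i ∧ y.1 = i) := fun h3 => h2 h3.1
      rw [if_neg h5, ite_self]
  rw [pr, Am, h1, Matrix.mul_zero, Matrix.zero_mul]

omit hK in
theorem zg_small (O : Out d) : ∃ t0 : ℝ, 0 < t0 ∧ ZG O t0 = pO O := by
  classical
  have hS : 0 ≤ ∑ i : O.I, (O.l (O.c i) : ℝ) := sum_nonneg fun i _ => Nat.cast_nonneg _
  refine ⟨1 / (1 + ∑ i : O.I, (O.l (O.c i) : ℝ)), by positivity, ?_⟩
  rw [← sum_pr, ZG, ZT]
  refine sum_subset (subset_univ _) fun i _ hi => ?_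
  apply pr_zero_of
  by_contra h0
  apply hi
  rw [mem_filter]
  refine ⟨mem_univ _, ?_⟩
  have hl : (0 : ℝ) < O.l (O.c i) := by exact_mod_cast Nat.pos_of_ne_zero h0
  have h1 : (O.l (O.c i) : ℝ) ≤ ∑ i : O.I, (O.l (O.c i) : ℝ) :=
    single_le_sum (f := fun i : O.I => (O.l (O.c i) : ℝ)) (fun i _ => Nat.cast_nonneg _)
      (mem_univ i)
  have h2 : (1 : ℝ) ≤ ((univ.filter fun j : O.I => O.c j = O.c i).card : ℝ) := by
    have h3 : 0 < (univ.filter fun j : O.I => O.c j = O.c i).card :=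
      card_pos.2 ⟨i, mem_filter.2 ⟨mem_univ _, rfl⟩⟩
    exact_mod_cast h3
  show _ < cc O (O.c i)
  rw [cc, div_lt_div_iff₀ (by positivity) hl]
  nlinarith

omit hK in
theorem cc_nonneg (O : Out d) (κ : O.K) : 0 ≤ cc O κ := by
  rw [cc]; positivity

omit hK in
theorem zg_large (O : Out d) : ∃ T : ℝ, ZG O T = 0 := by
  classical
  refine ⟨∑ i : O.I, cc O (O.c i), ?_⟩
  rw [ZG, ZT]
  refine sum_eq_zero fun i hi => ?_
  exfalso
  rw [mem_filter] at hi
  have h1 : cc O (O.c i) ≤ ∑ i : O.I, cc O (O.c i) :=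
    single_le_sum (f := fun i : O.I => cc O (O.c i)) (fun i _ => cc_nonneg _ _) (mem_univ i)
  exact absurd hi.2 (not_lt.2 h1)

omit hK in
theorem hs_comm_pr_le {Z x : Mt d} (hZ : IsPr Z) : hs (Z * x - x * Z) ≤ hs x := by
  have h1 := hs_pyth_left hZ (Z * x - x * Z)
  have h2 := hs_pyth_left hZ x
  have e1 : Z * (Z * x - x * Z) = Z * x * (1 - Z) := by
    rw [Matrix.mul_sub, ← Matrix.mul_assoc, hZ.2, Matrix.mul_sub, Matrix.mul_one, Matrix.mul_assoc]
  have e2 : (1 - Z) * (Z * x - x * Z) = -((1 - Z) * x * Z) := by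
    have h3 : (1 - Z) * Z = 0 := by rw [Matrix.sub_mul, Matrix.one_mul, hZ.2, sub_self]
    rw [Matrix.mul_sub, ← Matrix.mul_assoc, h3, Matrix.zero_mul, zero_sub, ← Matrix.mul_assoc]
  rw [e1, e2, hs_neg] at h1
  have h4 := hs_mul_pr_le_self (pr_compl hZ) (Z * x)
  have h5 := hs_mul_pr_le_self hZ ((1 - Z) * x)
  linarith

/-- commutators of `ZG` with elements close to the algebra -/
theorem zg_comm_le (O : Out d) (t : ℝ) (p a : Mt d) (ha : a ∈ O.alg) :
    hs (ZG O t * p - p * ZG O t) ≤ hs (p - a) := by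
  have h1 : ZG O t * p - p * ZG O t = ZG O t * (p - a) - (p - a) * ZG O t := by
    rw [Matrix.mul_sub, Matrix.sub_mul, zg_comm hK O t a ha]
    abel
  rw [h1]
  exact hs_comm_pr_le (zg_pr hK O t)

omit hK in
theorem pr_orth (Q : Out d) (i j : Q.I) (h : i ≠ j) : pr Q i * pr Q j = 0 := by
  rw [pr, pr, Am_mul (BD_eu rfl)]
  have h1 : eu Q i i * eu Q j j = 0 := by
    ext a b
    rw [Matrix.mul_apply]
    simp only [eu, Matrix.zero_apply]
    refine sum_eq_zero fun c _ => ?_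
    by_cases h2 : a = i ∧ c = i
    · rw [if_neg (c := c = j ∧ b = j), mul_zero]
      rintro ⟨h3, _⟩
      exact h (by rw [← h3, h2.2])
    · rw [if_neg h2, zero_mul]
  rw [h1, Am, Bm_zero, Matrix.mul_zero, Matrix.zero_mul]

omit hK in
theorem pr_mem (Q : Out d) (i : Q.I) : pr Q i ∈ Q.alg := Am_mem (BD_eu rfl)

/-- the basic inequality -/
theorem basic (hMON : S_MON) (hI : S_INV) (hS : S_SCA) (hA : Pool.Agent.N957.NH.S_AVG)
    {k : ℕ} {K1 ε q : ℝ} (hK1 : 0 ≤ K1) (hε : 0 < ε) (hq : 1 < q) {O Q : Out d}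
    {u : Fin k → Mt d} (hP : Pair u O Q K1 ε) (t : Q.I → ℝ) (ht : ∀ j, 0 < t j) :
    ∑ j, min (tr (pr Q j * ZG O (t j))) (tr (pr Q j) - tr (pr Q j * ZG O (t j))) ≤
      200 * K1 * k * (∑ j, tr (pr Q j * ZG O (t j / q)) - ∑ j, tr (pr Q j * ZG O (t j))) +
      (200 * K1 * k * ((100 * (q / (q - 1)) * ε + 100 * ε) +
        √(100 * (q / (q - 1)) * ε + 100 * ε)) + 4 * ε) * d := by
  have hd : (0 : ℝ) ≤ d := Nat.cast_nonneg d
  have hq1 : 0 < q - 1 := by linarith
  have hq0 : 0 < q := by linarith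
  -- the elements of the algebra
  set a : Q.I → Mt d := fun j => Pool.Agent.N957.NH.prL O (pr Q j) with ha
  have hamem : ∀ j, a j ∈ O.alg := fun j => JJ_mem _
  have ha1 : ∑ j, hs (pr Q j - a j) ≤ ε * d := by
    have h1 := hA d Q (LinearMap.id - Pool.Agent.N957.NH.prL O) (ε * d) (by
      intro c hc hc1
      obtain ⟨b, hb, hb2⟩ := hP.sub c hc hc1
      exact (hs_sub_kp_le (x := c) hb).trans hb2)
    exact h1
  have hu1 : ∀ s, ∑ j, hs (u s * pr Q j - pr Q j * u s) ≤ ε * d := by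
    intro s
    have h3 := hA d Q (LinearMap.mulLeft ℂ (u s) - LinearMap.mulRight ℂ (u s)) (ε * d) (by
      intro c hc hc1
      show hs (u s * c - c * u s) ≤ ε * d
      have h1 := hP.blk.en c hc hc1
      have h2 : hs (u s * c - c * u s) ≤ Pool.Agent.W661.RC.en u c :=
        single_le_sum (f := fun s => hs (u s * c - c * u s)) (fun s _ => hs_nonneg _) (mem_univ s)
      exact h2.trans h1)
    exact h3
  have hz1 : ∀ t : Q.I → ℝ, ∑ j, hs (ZG O (t j) * pr Q j - pr Q j * ZG O (t j)) ≤ ε * d :=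
    fun t => (sum_le_sum fun j _ => zg_comm_le hK O (t j) _ _ (hamem j)).trans ha1
  set E : ℝ := 100 * (q / (q - 1)) * ε + 100 * ε with hE
  have hqq : 0 ≤ q / (q - 1) := by positivity
  have hE0 : 0 ≤ E := by rw [hE]; positivity
  have hEε : ε ≤ E := by
    have : 0 ≤ 100 * (q / (q - 1)) * ε := by positivity
    rw [hE]; linarith
  have hEd : ε * d ≤ E * d := mul_le_mul_of_nonneg_right hEε hd
  have hm : ∀ s, ∑ j, hs ((1 - ZG O (t j / q)) * u s * ZG O (t j) * pr Q j) ≤ E * d := by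
    intro s
    have h1 := hMON d O Q (u s) a ε (ε * d) q t (hP.un s) hq hε.le ht (hP.near s) hP.size hamem
      ha1 (hu1 s)
    refine h1.trans (le_of_eq ?_)
    rw [hE]; ring
  set P : Mt d := ∑ j, pr Q j * ZG O (t j) * pr Q j with hPd
  set D : ℝ := ∑ j, tr (pr Q j * (ZG O (t j / q) - ZG O (t j))) with hD
  have hD2 : D = ∑ j, tr (pr Q j * ZG O (t j / q)) - ∑ j, tr (pr Q j * ZG O (t j)) := by
    rw [hD, ← sum_sub_distrib]
    refine sum_congr rfl fun j _ => ?_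
    rw [Matrix.mul_sub, tr_sub]
  have hsq : √(E * d * d) = √E * d := by
    rw [mul_assoc, Real.sqrt_mul hE0, Real.sqrt_mul_self hd]
  have hinv : ∀ s, hs (u s * P - P * u s) ≤ 100 * (D + E * d + √E * d) := by
    intro s
    have h1 := hI d Q.I (fun j => pr Q j) (fun j => ZG O (t j)) (fun j => ZG O (t j / q)) (u s)
      (E * d) (fun j => pr_isPr j) (fun i j h => pr_orth Q i j h) (fun j => zg_pr hK O _)
      (fun j => zg_pr hK O _)
      (fun j => zg_mul hK O (div_le_self (ht j).le hq.le)) (hP.un s) (by positivity)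
      ((hu1 s).trans hEd) ((hz1 t).trans hEd) ((hz1 fun j => t j / q).trans hEd) (hm s)
    rw [hsq] at h1
    exact h1
  have hen : Pool.Agent.W661.RC.en u P ≤ k * (100 * (D + E * d + √E * d)) := by
    refine (sum_le_sum fun s _ => hinv s).trans (le_of_eq ?_)
    rw [sum_const, card_univ, Fintype.card_fin, nsmul_eq_mul]
  have h3 := hS d k u Q K1 ε (fun j => ZG O (t j)) hK1 hP.blk (fun j => zg_pr hK O _)
  have h4 := mul_le_mul_of_nonneg_left hen hK1
  have h5 := hz1 t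
  rw [← hD2]
  refine h3.trans ?_
  have h6 : 2 * (K1 * Pool.Agent.W661.RC.en u P + ε * d +
      ∑ j, hs (ZG O (t j) * pr Q j - pr Q j * ZG O (t j))) ≤
      2 * (K1 * (k * (100 * (D + E * d + √E * d))) + ε * d + ε * d) := by
    linarith
  refine h6.trans (le_of_eq ?_)
  ring

end Con

theorem main (hK : S_KKZ) (hMON : S_MON) (hI : S_INV) (hS : S_SCA)
    (hA : Pool.Agent.N957.NH.S_AVG) : S_CON := by
  intro k K1 ρ γ hK1 hρ hγ
  obtain ⟨N, q, ε, hN, hq, hqN, hε, hc1, hc2⟩ :=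
    consts (200 * K1 * k) ρ γ (by positivity) hρ hγ
  refine ⟨ε, hε, ?_⟩
  intro d O Q u hd hP
  have hd0 : (0 : ℝ) < d := by exact_mod_cast hd
  have hq0 : 0 < q := by linarith
  set c : ℝ := 200 * K1 * k with hc
  have hc0 : 0 ≤ c := by positivity
  set s : ℝ := c * ((100 * (q / (q - 1)) * ε + 100 * ε) +
    √(100 * (q / (q - 1)) * ε + 100 * ε)) + 4 * ε with hs0
  have hs2 : s + 2 * ε ≤ ρ / 8 := by rw [hs0]; linarith
  have hs3 : s ≤ ρ / 8 := by linarith
  -- the functions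
  set φ : Q.I → ℝ → ℝ := fun j t => tr (pr Q j * ZG O t) with hφ
  set τ : Q.I → ℝ := fun j => tr (pr Q j) with hτ
  have hφa : ∀ j, Antitone (φ j) := by
    intro j t t' h
    exact Le_mul_tr (Con.zg_le hK O h) (pr_psd (pr_isPr j))
  have hφ0 : ∀ j t, 0 ≤ φ j t := by
    intro j t
    exact tr_mul_nonneg (pr_psd (pr_isPr j)) (pr_psd (Con.zg_pr hK O t))
  have hφτ : ∀ j t, φ j t ≤ τ j := by
    intro j t
    have := Le_mul_tr (pr_le_one (Con.zg_pr hK O t)) (pr_psd (pr_isPr (O := Q) j))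
    rwa [Matrix.mul_one] at this
  have hτ0 : ∀ j, 0 ≤ τ j := fun j => pr_tr_nonneg (pr_isPr j)
  have hτs : ∑ j, τ j ≤ d := by
    have h1 : ∑ j, τ j = D0 Q := by
      rw [← tr_pO, ← sum_pr, tr_sum]
    rw [h1]
    exact D0_le
  obtain ⟨t0, ht0, hZ0⟩ := Con.zg_small O
  obtain ⟨T, hT⟩ := Con.zg_large O
  set β : Q.I → ℝ := fun j => 2 * tr (pr Q j * (1 - pO O)) with hβ
  have hβ0 : ∀ j, 0 ≤ β j := fun j =>
    mul_nonneg (by norm_num) (tr_mul_nonneg (pr_psd (pr_isPr j)) (pr_psd (pr_compl pO_pr)))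
  have hβs : ∑ j, β j ≤ 2 * ε * d := by
    have h1 : ∑ j, β j = 2 * tr (pO Q * (1 - pO O)) := by
      rw [hβ, ← mul_sum, ← tr_sum, ← Matrix.sum_mul, sum_pr]
    have h2 : tr (pO Q * (1 - pO O)) ≤ tr (1 - pO O) :=
      tr_mul_le_of_le_one (pr_le_one pO_pr) (pr_psd (pr_compl pO_pr))
    have h3 : tr (1 - pO O) = d - D0 O := by rw [tr_sub, tr_one, tr_pO]
    have h4 := hP.size
    rw [h1]
    linarith
  have hmed : ∀ j, ∃ m : ℝ, 0 < m ∧ (∀ t, m < t → φ j t ≤ τ j / 2) ∧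
      ∀ t, 0 < t → t < m → τ j - φ j t ≤ min (φ j t) (τ j - φ j t) + β j := by
    intro j
    refine med (φ j) (hφa j) (τ j) (β j) T t0 (hφ0 j) (hφτ j) ?_ ht0 ?_ (hβ0 j)
    · show tr (pr Q j * ZG O T) = 0
      rw [hT, Matrix.mul_zero, tr_zero]
    · show tr (pr Q j) - 2 * tr (pr Q j * (1 - pO O)) / 2 ≤ tr (pr Q j * ZG O t0)
      rw [hZ0, Matrix.mul_sub, Matrix.mul_one, tr_sub]
      linarith
  choose m hm0 hm1 hm2 using hmed
  refine ⟨m, hm0, ?_⟩
  have hbas := fun (t : Q.I → ℝ) (ht : ∀ j, 0 < t j) =>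
    Con.basic hK hMON hI hS hA hK1 hε hq hP t ht
  -- the upper side
  have hN0 : (0 : ℝ) < N := by exact_mod_cast hN
  have hq1 : ∀ n : ℕ, 1 ≤ q ^ n := fun n => one_le_pow₀ hq.le
  have hU : (N : ℝ) * ∑ j, φ j (m j * q ^ N) ≤ c * d + N * (s * d) := by
    have h1 := down (fun n => ∑ j, φ j (m j * q ^ n)) c (s * d) (by
      intro n
      have h2 := hbas (fun j => m j * q ^ (n + 1)) (fun j => mul_pos (hm0 j) (by positivity))
      have e1 : ∀ j, m j * q ^ (n + 1) / q = m j * q ^ n := by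
        intro j
        rw [pow_succ]
        field_simp
      simp only [e1] at h2
      refine le_trans (sum_le_sum fun j _ => ?_) h2
      have h3 : φ j (m j * q ^ (n + 1)) ≤ τ j / 2 := by
        apply hm1
        have h4 : 1 < q ^ (n + 1) := one_lt_pow₀ hq (by omega)
        have := hm0 j
        nlinarith
      exact le_min le_rfl (by show φ j _ ≤ τ j - φ j _; linarith)) (by
      intro n
      refine sum_le_sum fun j _ => hφa j ?_
      exact mul_le_mul_of_nonneg_left (pow_le_pow_right₀ hq.le (by omega)) (hm0 j).le) N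
    have h5 : ∑ j, φ j (m j * q ^ 0) ≤ d := (sum_le_sum fun j _ => hφτ j _).trans hτs
    have h6 : 0 ≤ ∑ j, φ j (m j * q ^ N) := sum_nonneg fun j _ => hφ0 j _
    refine h1.trans ?_
    have h7 := mul_le_mul_of_nonneg_left (show ∑ j, φ j (m j * q ^ 0) - ∑ j, φ j (m j * q ^ N) ≤ d
      by linarith) hc0
    linarith
  have hL : (N : ℝ) * ∑ j, (τ j - φ j (m j / q ^ N)) ≤ c * d + N * ((s + 2 * ε) * d) := by
    have h1 := up (fun n => ∑ j, (τ j - φ j (m j / q ^ n))) c ((s + 2 * ε) * d) (by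
      intro n
      have h2 := hbas (fun j => m j / q ^ (n + 1)) (fun j => div_pos (hm0 j) (by positivity))
      have e1 : ∀ j, m j / q ^ (n + 1) / q = m j / q ^ (n + 2) := by
        intro j
        rw [div_div, ← pow_succ]
      simp only [e1] at h2
      have h3 : ∑ j, (τ j - φ j (m j / q ^ (n + 1))) ≤
          ∑ j, (min (φ j (m j / q ^ (n + 1))) (τ j - φ j (m j / q ^ (n + 1))) + β j) := by
        refine sum_le_sum fun j _ => hm2 j _ (div_pos (hm0 j) (by positivity)) ?_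
        have h4 : 1 < q ^ (n + 1) := one_lt_pow₀ hq (by omega)
        exact div_lt_self (hm0 j) h4
      rw [sum_add_distrib] at h3
      have h5 : ∑ j, (τ j - φ j (m j / q ^ (n + 1))) - ∑ j, (τ j - φ j (m j / q ^ (n + 2))) =
          ∑ j, φ j (m j / q ^ (n + 2)) - ∑ j, φ j (m j / q ^ (n + 1)) := by
        rw [sum_sub_distrib, sum_sub_distrib]
        ring
      show ∑ j, (τ j - φ j (m j / q ^ (n + 1))) ≤ c * (∑ j, (τ j - φ j (m j / q ^ (n + 1))) -
        ∑ j, (τ j - φ j (m j / q ^ (n + 2)))) + (s + 2 * ε) * d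
      rw [h5]
      refine (h3.trans (add_le_add h2 hβs)).trans (le_of_eq ?_)
      ring) (by
      intro n
      refine sum_le_sum fun j _ => sub_le_sub_left (hφa j ?_) _
      exact div_le_div_of_nonneg_left (hm0 j).le (by positivity)
        (pow_le_pow_right₀ hq.le (by omega))) N
    have h5 : ∑ j, (τ j - φ j (m j / q ^ 1)) ≤ d :=
      (sum_le_sum fun j _ => by linarith [hφ0 j (m j / q ^ 1)]).trans hτs
    have h6 : 0 ≤ ∑ j, (τ j - φ j (m j / q ^ (N + 1))) :=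
      sum_nonneg fun j _ => sub_nonneg.2 (hφτ j _)
    refine h1.trans ?_
    have h7 := mul_le_mul_of_nonneg_left (show ∑ j, (τ j - φ j (m j / q ^ 1)) -
      ∑ j, (τ j - φ j (m j / q ^ (N + 1))) ≤ d by linarith) hc0
    linarith
  have hcN : c ≤ N * (ρ / 8) := by
    rw [div_le_iff₀ hN0] at hc1
    linarith
  have hU2 : ∑ j, φ j (m j * q ^ N) ≤ ρ / 4 * d := by
    refine le_of_mul_le_mul_left (hU.trans ?_) hN0
    have h1 := mul_le_mul_of_nonneg_right hcN hd0.le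
    have h2 := mul_le_mul_of_nonneg_left (mul_le_mul_of_nonneg_right hs3 hd0.le) hN0.le
    nlinarith
  have hL2 : ∑ j, (τ j - φ j (m j / q ^ N)) ≤ ρ / 4 * d := by
    refine le_of_mul_le_mul_left (hL.trans ?_) hN0
    have h1 := mul_le_mul_of_nonneg_right hcN hd0.le
    have h2 := mul_le_mul_of_nonneg_left (mul_le_mul_of_nonneg_right hs2 hd0.le) hN0.le
    nlinarith
  rw [hqN] at hU2 hL2
  have h1 : ∑ j, tr (pr Q j * ZG O (γ * m j)) = ∑ j, φ j (m j * γ) :=
    sum_congr rfl fun j _ => by rw [hφ, mul_comm]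
  have h2 : ∑ j, tr (pr Q j * ZL O (m j / γ)) ≤ ∑ j, (τ j - φ j (m j / γ)) := by
    refine sum_le_sum fun j _ => ?_
    have h3 := (hK d O).2.2.2.2.1 (m j / γ)
    have h4 : tr (pr Q j * ZG O (m j / γ)) + tr (pr Q j * ZL O (m j / γ)) =
        tr (pr Q j * pO O) := by
      rw [← h3, Matrix.mul_add, tr_add]
    have h5 := Le_mul_tr (pr_le_one (pO_pr (O := O))) (pr_psd (pr_isPr (O := Q) j))
    rw [Matrix.mul_one] at h5
    show _ ≤ tr (pr Q j) - tr (pr Q j * ZG O (m j / γ))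
    linarith
  rw [h1]
  have h6 : 0 ≤ ρ * d := by positivity
  linarith

end

end Pool.Agent.N776.ST
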